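import Mathlib

/-!
# The order of a non-Fano code is odd

`W` is a set of words with seven coordinates `0, ..., 6`, in which, on each of the six three-point
lines of the non-Fano matroid, two coordinates determine the third.  If the words are free on the
independent pairs and on `{0,1,2}`, and determined by the coordinates `3, 4, 5`, then the number of
symbols in coordinate `0` is odd.
-/

set_option autoImplicit false

namespace Pool.Agent.H76CF

/-- the six three-point lines of the non-Fano matroid on `{0, ..., 6}` -/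
def nfLines : Finset (Finset (Fin 7)) :=
  {{0, 1, 3}, {0, 2, 4}, {1, 2, 5}, {0, 5, 6}, {1, 4, 6}, {2, 3, 6}}

section core

variable {S : Fin 7 → Type} (W : Set (∀ i, S i)) (o : ∀ i, S i)

/-- the chain from the symbol `a` to the symbol `a'` of coordinate `0` -/
def Chain (a a' : S 0) : Prop :=
  ∃ u ∈ W, ∃ w ∈ W, ∃ s ∈ W, u 0 = a ∧ u 3 = o 3 ∧ w 1 = u 1 ∧ w 5 = o 5 ∧ s 2 = w 2 ∧
    s 4 = o 4 ∧ s 0 = a'

variable {W o}

theorem chain_unique
    (hline : ∀ i j k : Fin 7, ({i, j, k} : Finset (Fin 7)) ∈ nfLines → ∀ w ∈ W, ∀ w' ∈ W,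
      w i = w' i → w j = w' j → w k = w' k)
    {a b c : S 0} (h : Chain W o a b) (h' : Chain W o a c) : b = c := by
  obtain ⟨u, hu, w, hw, s, hs, h1, h2, h3, h4, h5, h6, h7⟩ := h
  obtain ⟨u', hu', w', hw', s', hs', h1', h2', h3', h4', h5', h6', h7'⟩ := h'
  have e1 : u 1 = u' 1 := hline 0 3 1 (by decide) u hu u' hu' (h1.trans h1'.symm) (h2.trans h2'.symm)
  have e2 : w 2 = w' 2 := hline 1 5 2 (by decide) w hw w' hw' (by rw [h3, h3', e1])
    (h4.trans h4'.symm)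
  have e3 : s 0 = s' 0 := hline 2 4 0 (by decide) s hs s' hs' (by rw [h5, h5', e2])
    (h6.trans h6'.symm)
  rw [← h7, ← h7', e3]

theorem chain_symm (ho : o ∈ W)
    (hline : ∀ i j k : Fin 7, ({i, j, k} : Finset (Fin 7)) ∈ nfLines → ∀ w ∈ W, ∀ w' ∈ W,
      w i = w' i → w j = w' j → w k = w' k)
    (hfull : ∀ u ∈ W, ∀ v ∈ W, ∀ w ∈ W, ∃ z ∈ W, z 0 = u 0 ∧ z 1 = v 1 ∧ z 2 = w 2)
    {a a' a'' : S 0} (h : Chain W o a a') (h' : Chain W o a' a'') : a'' = a := by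
  obtain ⟨u, hu, w, hw, s, hs, h1, h2, h3, h4, h5, h6, h7⟩ := h
  obtain ⟨u', hu', w', hw', s', hs', h1', h2', h3', h4', h5', h6', h7'⟩ := h'
  -- the six words with `X₆ = o₆`
  obtain ⟨U, hU, U0, U1, U2⟩ := hfull u hu u hu o ho
  obtain ⟨V, hV, V0, V1, V2⟩ := hfull o ho u hu w hw
  obtain ⟨Z, hZ, Z0, Z1, Z2⟩ := hfull s hs o ho w hw
  obtain ⟨U', hU', U0', U1', U2'⟩ := hfull u' hu' u' hu' o ho
  obtain ⟨V', hV', V0', V1', V2'⟩ := hfull o ho u' hu' w' hw'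
  obtain ⟨Z', hZ', Z0', Z1', Z2'⟩ := hfull s' hs' o ho w' hw'
  obtain ⟨P, hP, P0, P1, P2⟩ := hfull s hs o ho o ho
  obtain ⟨Q, hQ, Q0, Q1, Q2⟩ := hfull o ho u hu o ho
  obtain ⟨T, hT, T0, T1, T2⟩ := hfull o ho o ho w' hw'
  have U3 : U 3 = o 3 := (hline 0 1 3 (by decide) U hU u hu U0 U1).trans h2
  have U6 : U 6 = o 6 := hline 2 3 6 (by decide) U hU o ho U2 U3
  have V5 : V 5 = o 5 := (hline 1 2 5 (by decide) V hV w hw (V1.trans h3.symm) V2).trans h4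
  have V6 : V 6 = o 6 := hline 0 5 6 (by decide) V hV o ho V0 V5
  have Z4 : Z 4 = o 4 := (hline 0 2 4 (by decide) Z hZ s hs Z0 (Z2.trans h5.symm)).trans h6
  have Z6 : Z 6 = o 6 := hline 1 4 6 (by decide) Z hZ o ho Z1 Z4
  have U3' : U' 3 = o 3 := (hline 0 1 3 (by decide) U' hU' u' hu' U0' U1').trans h2'
  have U6' : U' 6 = o 6 := hline 2 3 6 (by decide) U' hU' o ho U2' U3'
  have V5' : V' 5 = o 5 := (hline 1 2 5 (by decide) V' hV' w' hw' (V1'.trans h3'.symm) V2').trans h4'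
  have V6' : V' 6 = o 6 := hline 0 5 6 (by decide) V' hV' o ho V0' V5'
  have Z4' : Z' 4 = o 4 :=
    (hline 0 2 4 (by decide) Z' hZ' s' hs' Z0' (Z2'.trans h5'.symm)).trans h6'
  have Z6' : Z' 6 = o 6 := hline 1 4 6 (by decide) Z' hZ' o ho Z1' Z4'
  -- `X₃(0,b) = X₃(a',0)`
  have VZ : V 3 = Z 3 := hline 2 6 3 (by decide) V hV Z hZ (V2.trans Z2.symm) (V6.trans Z6.symm)
  -- `X₄(a',0) = X₄(0,c')`
  have UV' : U' 4 = V' 4 :=
    hline 1 6 4 (by decide) U' hU' V' hV' (U1'.trans V1'.symm) (U6'.trans V6'.symm)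
  have PZ : P 3 = Z 3 := hline 0 1 3 (by decide) P hP Z hZ (P0.trans Z0.symm) (P1.trans Z1.symm)
  have QV : Q 3 = V 3 := hline 0 1 3 (by decide) Q hQ V hV (Q0.trans V0.symm) (Q1.trans V1.symm)
  have PQ : P 6 = Q 6 := hline 2 3 6 (by decide) P hP Q hQ (P2.trans Q2.symm)
    (PZ.trans (VZ.symm.trans QV.symm))
  have PU : P 4 = U' 4 := hline 0 2 4 (by decide) P hP U' hU'
    (P0.trans (h7.trans (h1'.symm.trans U0'.symm))) (P2.trans U2'.symm)
  have TV : T 4 = V' 4 := hline 0 2 4 (by decide) T hT V' hV' (T0.trans V0'.symm) (T2.trans V2'.symm)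
  have PT : P 6 = T 6 := hline 1 4 6 (by decide) P hP T hT (P1.trans T1.symm)
    (PU.trans (UV'.trans TV.symm))
  have QT : Q 5 = T 5 := hline 0 6 5 (by decide) Q hQ T hT (Q0.trans T0.symm) (PQ.symm.trans PT)
  have UQ : U 5 = Q 5 := hline 1 2 5 (by decide) U hU Q hQ (U1.trans Q1.symm) (U2.trans Q2.symm)
  have ZT : Z' 5 = T 5 :=
    hline 1 2 5 (by decide) Z' hZ' T hT (Z1'.trans T1.symm) (Z2'.trans T2.symm)
  have UZ : U 0 = Z' 0 := hline 5 6 0 (by decide) U hU Z' hZ' (UQ.trans (QT.trans ZT.symm))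
    (U6.trans Z6'.symm)
  rw [← h7', ← Z0', ← UZ, U0, h1]

/-- the number of symbols of coordinate `0` is odd -/
theorem odd_card (ho : o ∈ W)
    (hline : ∀ i j k : Fin 7, ({i, j, k} : Finset (Fin 7)) ∈ nfLines → ∀ w ∈ W, ∀ w' ∈ W,
      w i = w' i → w j = w' j → w k = w' k)
    (hpair : ∀ i j : Fin 7, i ≠ j → ∀ u ∈ W, ∀ v ∈ W, ∃ z ∈ W, z i = u i ∧ z j = v j)
    (hfull : ∀ u ∈ W, ∀ v ∈ W, ∀ w ∈ W, ∃ z ∈ W, z 0 = u 0 ∧ z 1 = v 1 ∧ z 2 = w 2)
    (hbase : ∀ w ∈ W, ∀ w' ∈ W, w 3 = w' 3 → w 4 = w' 4 → w 5 = w' 5 → w 0 = w' 0)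
    (hfin : ((fun w : ∀ i, S i => w 0) '' W).Finite) :
    Odd ((fun w : ∀ i, S i => w 0) '' W).ncard := by
  classical
  set A : Set (S 0) := (fun w : ∀ i, S i => w 0) '' W with hA
  have htot : ∀ a : A, ∃ a' : A, Chain W o a a' := by
    rintro ⟨a, v, hv, rfl⟩
    obtain ⟨u, hu, u0, u3⟩ := hpair 0 3 (by decide) v hv o ho
    obtain ⟨w, hw, w1, w5⟩ := hpair 1 5 (by decide) u hu o ho
    obtain ⟨s, hs, s2, s4⟩ := hpair 2 4 (by decide) w hw o ho
    exact ⟨⟨s 0, s, hs, rfl⟩, u, hu, w, hw, s, hs, u0, u3, w1, w5, s2, s4, rfl⟩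
  choose σ hσ using htot
  have hinv : Function.Involutive σ := fun a =>
    Subtype.ext (chain_symm ho hline hfull (hσ a) (hσ (σ a)))
  let _ : Fintype A := hfin.fintype
  have he : (show Function.End A from σ) ^ 2 ^ 1 = 1 := by
    simp only [pow_one, sq]
    funext a
    exact hinv a
  have : Fact (Nat.Prime 2) := ⟨Nat.prime_two⟩
  have hmod := Equiv.Perm.card_fixedPoints_modEq (p := 2) (n := 1) he
  have hfix : ∀ a : A, σ a = a → (a : S 0) = o 0 := by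
    intro a ha
    have hc : Chain W o (a : S 0) a := by
      have := hσ a
      rwa [ha] at this
    obtain ⟨u, hu, w, hw, s, hs, h1, h2, h3, h4, h5, h6, h7⟩ := hc
    obtain ⟨q, hq, q0, q1, q2⟩ := hfull u hu u hu w hw
    have q3 : q 3 = o 3 := (hline 0 1 3 (by decide) q hq u hu q0 q1).trans h2
    have q5 : q 5 = o 5 := (hline 1 2 5 (by decide) q hq w hw (q1.trans h3.symm) q2).trans h4
    have q4 : q 4 = o 4 := (hline 0 2 4 (by decide) q hq s hs (q0.trans (h1.trans h7.symm))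
      (q2.trans h5.symm)).trans h6
    rw [← h1, ← q0]
    exact hbase q hq o ho q3 q4 q5
  have hfo : σ ⟨o 0, o, ho, rfl⟩ = ⟨o 0, o, ho, rfl⟩ := by
    refine Subtype.ext (chain_unique hline (hσ ⟨o 0, o, ho, rfl⟩) ?_)
    exact ⟨o, ho, o, ho, o, ho, rfl, rfl, rfl, rfl, rfl, rfl, rfl⟩
  have hcard : Fintype.card (Function.fixedPoints (show Function.End A from σ)) = 1 := by
    rw [Fintype.card_eq_one_iff]
    refine ⟨⟨⟨o 0, o, ho, rfl⟩, hfo⟩, ?_⟩
    rintro ⟨a, ha⟩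
    exact Subtype.ext (Subtype.ext (hfix a ha))
  rw [hcard] at hmod
  rw [Set.ncard_eq_toFinset_card', Set.toFinset_card, Nat.odd_iff]
  exact hmod
end core

end Pool.Agent.H76CF
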