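import Mathlib

/-!
# Shannon entropy of discrete distributions: the two equality cases

For a distribution `q` and a function `g`, `H(q) = H(g(q)) < ∞` forces `g` to be injective on the
support of `q`; and `H(q) = H(f(q)) + H(g(q)) < ∞`, for `(f, g)` injective, forces independence.
-/

set_option autoImplicit false

open scoped ENNReal

namespace Pool.Agent.H76CF

/-- Shannon entropy (natural logarithm) of a discrete probability distribution -/
noncomputable def shannon {α : Type*} (p : PMF α) : ℝ≥0∞ :=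
  ∑' a, ENNReal.ofReal (Real.negMulLog (p a).toReal)

/-- `- log t` as an extended nonnegative number -/
noncomputable def ell (t : ℝ≥0∞) : ℝ≥0∞ := ENNReal.ofReal (-Real.log t.toReal)

theorem phi_eq {t : ℝ≥0∞} (ht : t ≤ 1) :
    ENNReal.ofReal (Real.negMulLog t.toReal) = t * ell t := by
  have h0 : 0 ≤ t.toReal := ENNReal.toReal_nonneg
  have ht' : t ≠ ⊤ := ne_top_of_le_ne_top ENNReal.one_ne_top ht
  rw [ell, Real.negMulLog, neg_mul, ← mul_neg, ENNReal.ofReal_mul h0, ENNReal.ofReal_toReal ht']

theorem shannon_eq {α : Type*} (p : PMF α) : shannon p = ∑' a, p a * ell (p a) :=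
  tsum_congr fun a => phi_eq (p.coe_le_one a)

theorem tsum_map {γ α : Type*} (q : PMF γ) (g : γ → α) (F : α → ℝ≥0∞) :
    ∑' a, (q.map g) a * F a = ∑' c, q c * F (g c) := by
  classical
  simp only [PMF.map_apply, ← ENNReal.tsum_mul_right]
  rw [ENNReal.tsum_comm]
  refine tsum_congr fun c => ?_
  rw [tsum_eq_single (g c)]
  · simp
  · intro a ha
    simp [ha]

theorem shannon_map {γ α : Type*} (q : PMF γ) (g : γ → α) :
    shannon (q.map g) = ∑' c, q c * ell ((q.map g) (g c)) := by
  rw [shannon_eq, tsum_map q g (fun a => ell ((q.map g) a))]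

theorem le_map {γ α : Type*} (q : PMF γ) (g : γ → α) (c : γ) : q c ≤ (q.map g) (g c) := by
  classical
  rw [PMF.map_apply]
  refine le_trans ?_ (ENNReal.le_tsum c)
  simp

theorem ell_anti {s t : ℝ≥0∞} (hs : s ≠ 0) (ht : t ≤ 1) (h : s ≤ t) : ell t ≤ ell s := by
  have ht' : t ≠ ⊤ := ne_top_of_le_ne_top ENNReal.one_ne_top ht
  have hs' : s ≠ ⊤ := ne_top_of_le_ne_top ht' h
  unfold ell
  apply ENNReal.ofReal_le_ofReal
  have : 0 < s.toReal := ENNReal.toReal_pos hs hs'
  have h2 : s.toReal ≤ t.toReal := (ENNReal.toReal_le_toReal hs' ht').2 h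
  have := Real.log_le_log this h2
  linarith

theorem ell_inj {s t : ℝ≥0∞} (hs : s ≠ 0) (hs1 : s ≤ 1) (ht0 : t ≠ 0) (ht : t ≤ 1)
    (h : ell s = ell t) : s = t := by
  have ht' : t ≠ ⊤ := ne_top_of_le_ne_top ENNReal.one_ne_top ht
  have hs' : s ≠ ⊤ := ne_top_of_le_ne_top ENNReal.one_ne_top hs1
  have a1 : 0 < s.toReal := ENNReal.toReal_pos hs hs'
  have a2 : 0 < t.toReal := ENNReal.toReal_pos ht0 ht'
  have b1 : s.toReal ≤ 1 := by
    simpa using (ENNReal.toReal_le_toReal hs' ENNReal.one_ne_top).2 hs1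
  have b2 : t.toReal ≤ 1 := by
    simpa using (ENNReal.toReal_le_toReal ht' ENNReal.one_ne_top).2 ht
  unfold ell at h
  rw [ENNReal.ofReal_eq_ofReal_iff (by have := Real.log_nonpos a1.le b1; linarith)
    (by have := Real.log_nonpos a2.le b2; linarith)] at h
  have h3 : Real.log s.toReal = Real.log t.toReal := by linarith
  have h4 : s.toReal = t.toReal := Real.log_injOn_pos a1 a2 h3
  exact (ENNReal.toReal_eq_toReal_iff' hs' ht').1 h4

theorem eq_of_tsum_eq {γ : Type*} {f g : γ → ℝ≥0∞} (hle : ∀ c, f c ≤ g c)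
    (hs : ∑' c, f c = ∑' c, g c) (hfin : ∑' c, g c ≠ ⊤) (c : γ) : f c = g c := by
  have h1 : ∑' c, (g c - f c) = 0 := by
    have h2 : ∑' c, g c = ∑' c, f c + ∑' c, (g c - f c) := by
      rw [← ENNReal.tsum_add]
      exact tsum_congr fun c => (add_tsub_cancel_of_le (hle c)).symm
    have h3 : ∑' c, f c + ∑' c, (g c - f c) = ∑' c, f c + 0 := by rw [← h2, add_zero, hs]
    exact (ENNReal.add_right_inj (hs ▸ hfin)).1 h3
  have := (ENNReal.tsum_eq_zero.1 h1) c
  exact le_antisymm (hle c) (tsub_eq_zero_iff_le.1 this)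

/-- equality case of `H(g(q)) ≤ H(q)` -/
theorem map_eq_of_shannon {γ α : Type*} (q : PMF γ) (g : γ → α)
    (h : shannon (q.map g) = shannon q) (hfin : shannon q ≠ ⊤) :
    ∀ c ∈ q.support, (q.map g) (g c) = q c := by
  intro c hc
  rw [shannon_map, shannon_eq] at h
  rw [shannon_eq] at hfin
  have hle : ∀ c, q c * ell ((q.map g) (g c)) ≤ q c * ell (q c) := by
    intro c
    by_cases h0 : q c = 0
    · simp [h0]
    · gcongr
      exact ell_anti h0 (PMF.coe_le_one _ _) (le_map q g c)
  have h1 := eq_of_tsum_eq hle h hfin c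
  have hc0 : q c ≠ 0 := (PMF.mem_support_iff _ _).1 hc
  have h2 : ell ((q.map g) (g c)) = ell (q c) :=
    (ENNReal.mul_right_inj hc0 (ne_top_of_le_ne_top ENNReal.one_ne_top (q.coe_le_one c))).1 h1
  refine ell_inj ?_ (PMF.coe_le_one _ _) hc0 (q.coe_le_one c) h2
  exact fun h0 => hc0 (le_antisymm (h0 ▸ le_map q g c) zero_le)

theorem injOn_of_shannon {γ α : Type*} (q : PMF γ) (g : γ → α)
    (h : shannon (q.map g) = shannon q) (hfin : shannon q ≠ ⊤) :
    Set.InjOn g q.support := by
  classical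
  intro c hc c' hc' hg
  by_contra hne
  have h1 := map_eq_of_shannon q g h hfin c hc
  have h2 : q c + q c' ≤ (q.map g) (g c) := by
    rw [PMF.map_apply]
    have : ∑ x ∈ ({c, c'} : Finset γ), (if g c = g x then q x else 0) ≤
        ∑' x, (if g c = g x then q x else 0) := ENNReal.sum_le_tsum _
    rw [Finset.sum_pair hne] at this
    simpa [hg] using this
  rw [h1] at h2
  have h3 : q c + q c' ≤ q c + 0 := by simpa using h2
  have h4 : q c' ≤ 0 :=
    (ENNReal.add_le_add_iff_left (ne_top_of_le_ne_top ENNReal.one_ne_top (q.coe_le_one c))).1 h3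
  exact (PMF.mem_support_iff _ _).1 hc' (le_antisymm h4 zero_le)

/-- equality case of `H(X, Y) ≤ H(X) + H(Y)` -/
theorem indep_of_shannon {γ α β : Type*} (q : PMF γ) (f : γ → α) (g : γ → β)
    (hinj : ∀ c c', f c = f c' → g c = g c' → c = c')
    (h : shannon q = shannon (q.map f) + shannon (q.map g)) (hfin : shannon q ≠ ⊤) :
    (∀ c ∈ q.support, q c = (q.map f) (f c) * (q.map g) (g c)) ∧
    ∀ a ∈ (q.map f).support, ∀ b ∈ (q.map g).support, ∃ c ∈ q.support, f c = a ∧ g c = b := by
  classical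
  have hone : ∑' x : α × β, (q.map f) x.1 * (q.map g) x.2 = 1 := by
    rw [ENNReal.tsum_prod']
    simp only [ENNReal.tsum_mul_left, PMF.tsum_coe, mul_one]
  set P : γ → ℝ≥0∞ := fun c => (q.map f) (f c) with hP
  set Q : γ → ℝ≥0∞ := fun c => (q.map g) (g c) with hQ
  set R : γ → ℝ≥0∞ := fun c => if q c = 0 then 0 else P c * Q c with hR
  set D : γ → ℝ≥0∞ := fun c => ENNReal.ofReal ((q c).toReal *
    ((P c).toReal * (Q c).toReal / (q c).toReal - 1 -
      Real.log ((P c).toReal * (Q c).toReal / (q c).toReal))) with hD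
  have hq1 : ∀ c, q c ≠ ⊤ := fun c => ne_top_of_le_ne_top ENNReal.one_ne_top (q.coe_le_one c)
  have hP1 : ∀ c, P c ≤ 1 := fun c => PMF.coe_le_one _ _
  have hQ1 : ∀ c, Q c ≤ 1 := fun c => PMF.coe_le_one _ _
  have hPt : ∀ c, P c ≠ ⊤ := fun c => ne_top_of_le_ne_top ENNReal.one_ne_top (hP1 c)
  have hQt : ∀ c, Q c ≠ ⊤ := fun c => ne_top_of_le_ne_top ENNReal.one_ne_top (hQ1 c)
  have hid : ∀ c, q c * ell (P c) + q c * ell (Q c) + R c = q c * ell (q c) + D c + q c := by
    intro c
    by_cases h0 : q c = 0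
    · simp [hR, hD, h0]
    · have t0 : 0 < (q c).toReal := ENNReal.toReal_pos h0 (hq1 c)
      have p0 : 0 < (P c).toReal := ENNReal.toReal_pos
        (fun h' => h0 (le_antisymm (h' ▸ le_map q f c) zero_le)) (hPt c)
      have s0 : 0 < (Q c).toReal := ENNReal.toReal_pos
        (fun h' => h0 (le_antisymm (h' ▸ le_map q g c) zero_le)) (hQt c)
      have t1 : (q c).toReal ≤ 1 := by
        simpa using (ENNReal.toReal_le_toReal (hq1 c) ENNReal.one_ne_top).2 (q.coe_le_one c)
      have p1 : (P c).toReal ≤ 1 := by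
        simpa using (ENNReal.toReal_le_toReal (hPt c) ENNReal.one_ne_top).2 (hP1 c)
      have s1 : (Q c).toReal ≤ 1 := by
        simpa using (ENNReal.toReal_le_toReal (hQt c) ENNReal.one_ne_top).2 (hQ1 c)
      have lt := Real.log_nonpos t0.le t1
      have lp := Real.log_nonpos p0.le p1
      have ls := Real.log_nonpos s0.le s1
      have hr : 0 < (P c).toReal * (Q c).toReal / (q c).toReal := by positivity
      have hlr := Real.log_le_sub_one_of_pos hr
      have hdn : 0 ≤ (q c).toReal * ((P c).toReal * (Q c).toReal / (q c).toReal - 1 -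
          Real.log ((P c).toReal * (Q c).toReal / (q c).toReal)) :=
        mul_nonneg t0.le (by linarith)
      have e1 : q c * ell (P c) = ENNReal.ofReal ((q c).toReal * -Real.log (P c).toReal) := by
        rw [ENNReal.ofReal_mul t0.le, ENNReal.ofReal_toReal (hq1 c), ell]
      have e2 : q c * ell (Q c) = ENNReal.ofReal ((q c).toReal * -Real.log (Q c).toReal) := by
        rw [ENNReal.ofReal_mul t0.le, ENNReal.ofReal_toReal (hq1 c), ell]
      have e3 : q c * ell (q c) = ENNReal.ofReal ((q c).toReal * -Real.log (q c).toReal) := by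
        rw [ENNReal.ofReal_mul t0.le, ENNReal.ofReal_toReal (hq1 c), ell]
      have e4 : R c = ENNReal.ofReal ((P c).toReal * (Q c).toReal) := by
        rw [ENNReal.ofReal_mul p0.le, ENNReal.ofReal_toReal (hPt c), ENNReal.ofReal_toReal (hQt c)]
        simp [hR, h0]
      have e5 : q c = ENNReal.ofReal (q c).toReal := (ENNReal.ofReal_toReal (hq1 c)).symm
      have hDc : D c = ENNReal.ofReal ((q c).toReal *
        ((P c).toReal * (Q c).toReal / (q c).toReal - 1 -
        Real.log ((P c).toReal * (Q c).toReal / (q c).toReal))) := rfl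
      rw [e1, e2, e3, e4, hDc, ← ENNReal.ofReal_add (by nlinarith) (by nlinarith),
        ← ENNReal.ofReal_add (by nlinarith) (by positivity),
        ← ENNReal.ofReal_add (by nlinarith) hdn]
      nth_rewrite 8 [e5]
      rw [← ENNReal.ofReal_add (by nlinarith) t0.le]
      congr 1
      rw [Real.log_div (by positivity) t0.ne', Real.log_mul p0.ne' s0.ne']
      field_simp
      ring
  -- sum over all `c`
  have hsum : shannon (q.map f) + shannon (q.map g) + ∑' c, R c =
      shannon q + ∑' c, D c + 1 := by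
    rw [shannon_map q f, shannon_map q g, shannon_eq q, ← ENNReal.tsum_add, ← ENNReal.tsum_add,
      ← ENNReal.tsum_add]
    have : (1 : ℝ≥0∞) = ∑' c, q c := (PMF.tsum_coe q).symm
    rw [this, ← ENNReal.tsum_add]
    exact tsum_congr hid
  rw [← h, add_assoc] at hsum
  have hsum2 : ∑' c, R c = ∑' c, D c + 1 := (ENNReal.add_right_inj hfin).1 hsum
  have hinj2 : Function.Injective (fun c => (f c, g c)) := by
    intro c c' hcc
    exact hinj c c' (congrArg Prod.fst hcc) (congrArg Prod.snd hcc)
  have hRle : ∑' c, R c ≤ 1 := by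
    rw [← hone]
    refine le_trans (ENNReal.tsum_le_tsum (fun c => ?_))
      (ENNReal.tsum_comp_le_tsum_of_injective hinj2
        (fun x : α × β => (q.map f) x.1 * (q.map g) x.2))
    simp only [hR]
    split_ifs
    · exact zero_le
    · exact le_rfl
  have hD0 : ∑' c, D c = 0 := by
    rw [hsum2] at hRle
    have : ∑' c, D c + 1 ≤ 0 + 1 := by simpa using hRle
    exact le_antisymm ((ENNReal.add_le_add_iff_right ENNReal.one_ne_top).1 this) zero_le
  have hR1 : ∑' c, R c = 1 := by rw [hsum2, hD0, zero_add]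
  refine ⟨?_, ?_⟩
  · intro c hc
    have h0 : q c ≠ 0 := (PMF.mem_support_iff _ _).1 hc
    have t0 : 0 < (q c).toReal := ENNReal.toReal_pos h0 (hq1 c)
    have p0 : 0 < (P c).toReal := ENNReal.toReal_pos
      (fun h' => h0 (le_antisymm (h' ▸ le_map q f c) zero_le)) (hPt c)
    have s0 : 0 < (Q c).toReal := ENNReal.toReal_pos
      (fun h' => h0 (le_antisymm (h' ▸ le_map q g c) zero_le)) (hQt c)
    have hDc : D c = 0 := (ENNReal.tsum_eq_zero.1 hD0) c
    have hle : (q c).toReal * ((P c).toReal * (Q c).toReal / (q c).toReal - 1 -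
      Real.log ((P c).toReal * (Q c).toReal / (q c).toReal)) ≤ 0 := ENNReal.ofReal_eq_zero.1 hDc
    have hr : 0 < (P c).toReal * (Q c).toReal / (q c).toReal := by positivity
    have hr1 : (P c).toReal * (Q c).toReal / (q c).toReal = 1 := by
      by_contra hne
      have := Real.log_lt_sub_one_of_pos hr hne
      have := mul_pos t0 (sub_pos.2 this)
      linarith
    rw [div_eq_one_iff_eq t0.ne', ← ENNReal.toReal_mul] at hr1
    exact ((ENNReal.toReal_eq_toReal_iff' (ENNReal.mul_ne_top (hPt c) (hQt c)) (hq1 c)).1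
      hr1).symm
  · intro a ha b hb
    by_contra hno
    push Not at hno
    have ha0 : (q.map f) a ≠ 0 := (PMF.mem_support_iff _ _).1 ha
    have hb0 : (q.map g) b ≠ 0 := (PMF.mem_support_iff _ _).1 hb
    set G : α × β → ℝ≥0∞ := fun x => if x = (a, b) then 0 else (q.map f) x.1 * (q.map g) x.2
      with hG
    have h1 : ∑' c, R c ≤ ∑' x, G x := by
      refine le_trans (ENNReal.tsum_le_tsum (fun c => ?_))
        (ENNReal.tsum_comp_le_tsum_of_injective hinj2 G)
      simp only [hR, hG]
      split_ifs with h2 h3 h3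
      · exact le_rfl
      · exact zero_le
      · exact absurd (congrArg Prod.snd h3) (hno c ((PMF.mem_support_iff _ _).2 h2)
          (congrArg Prod.fst h3))
      · exact le_rfl
    have h2 : ∑' x, G x + (q.map f) a * (q.map g) b = 1 := by
      rw [← hone]
      have : ∀ x : α × β, (q.map f) x.1 * (q.map g) x.2 =
          G x + (if x = (a, b) then (q.map f) a * (q.map g) b else 0) := by
        intro x
        simp only [hG]
        split_ifs with h3
        · rw [h3, zero_add]
        · rw [add_zero]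
      rw [tsum_congr this, ENNReal.tsum_add, tsum_ite_eq]
    have h3 : 1 + (q.map f) a * (q.map g) b ≤ 1 + 0 := by
      calc 1 + (q.map f) a * (q.map g) b = ∑' c, R c + (q.map f) a * (q.map g) b := by rw [hR1]
        _ ≤ ∑' x, G x + (q.map f) a * (q.map g) b := by gcongr
        _ = 1 + 0 := by rw [h2, add_zero]
    have h4 : (q.map f) a * (q.map g) b ≤ 0 := (ENNReal.add_le_add_iff_left ENNReal.one_ne_top).1 h3
    exact mul_ne_zero ha0 hb0 (le_antisymm h4 zero_le)

/-- a distribution that is constant on its support and has entropy `log v` lives on `v` points -/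
theorem card_of_uniform {α : Type*} (q : PMF α) (t : ℝ≥0∞) (hq : ∀ a ∈ q.support, q a = t)
    (v : ℕ) (hv : 1 ≤ v) (h : shannon q = ENNReal.ofReal (Real.log v)) :
    q.support.encard = v := by
  obtain ⟨a0, ha0⟩ := q.support_nonempty
  have ht0 : t ≠ 0 := hq a0 ha0 ▸ (PMF.mem_support_iff _ _).1 ha0
  have ht1 : t ≤ 1 := hq a0 ha0 ▸ q.coe_le_one a0
  have htt : t ≠ ⊤ := ne_top_of_le_ne_top ENNReal.one_ne_top ht1
  have h1 : shannon q = ell t := by
    rw [shannon_eq]
    have : ∀ a, q a * ell (q a) = q a * ell t := by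
      intro a
      by_cases h0 : q a = 0
      · simp [h0]
      · rw [hq a ((PMF.mem_support_iff _ _).2 h0)]
    rw [tsum_congr this, ENNReal.tsum_mul_right, PMF.tsum_coe, one_mul]
  have hv0 : (v : ℝ≥0∞) ≠ 0 := by exact_mod_cast (by omega : v ≠ 0)
  have h2 : t = (v : ℝ≥0∞)⁻¹ := by
    refine ell_inj ht0 ht1 (by simp) (ENNReal.inv_le_one.2 (by exact_mod_cast hv)) ?_
    rw [← h1, h, ell, ENNReal.toReal_inv, ENNReal.toReal_natCast, Real.log_inv, neg_neg]
  have h3 : (q.support.encard : ℝ≥0∞) * t = 1 := by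
    rw [← ENNReal.tsum_set_const, ← PMF.tsum_coe q]
    rw [← tsum_subtype_eq_of_support_subset (s := q.support) (f := q) (by
      intro a ha
      exact ha)]
    exact tsum_congr fun a => (hq a a.2).symm
  rw [h2] at h3
  have h4 : (q.support.encard : ℝ≥0∞) = v := by
    have := congrArg (fun x => x * (v : ℝ≥0∞)) h3
    simp only [one_mul, mul_assoc] at this
    rwa [ENNReal.inv_mul_cancel hv0 (by simp), mul_one] at this
  exact_mod_cast h4

end Pool.Agent.H76CF
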