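import Mathlib
import Pool.Agent.H76CF.Core

/-!
# Rank-3 matroids on seven points given by their three-point lines, and uniform matroids
-/

set_option autoImplicit false

namespace Pool.Agent.H76CF

/-- the rank-3 matroid on `{0, ..., 6}` in which the dependent triples are the members of `lines` -/
def rank3 (lines : Finset (Finset (Fin 7))) (h3 : ∀ L ∈ lines, L.card = 3)
    (h1 : ∀ L ∈ lines, ∀ L' ∈ lines, L ≠ L' → (L ∩ L').card ≤ 1) : Matroid (Fin 7) :=
  (IndepMatroid.ofFinset Set.univ (fun I => I.card ≤ 3 ∧ I ∉ lines)
    (by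
      refine ⟨by simp, fun h => ?_⟩
      have := h3 _ h
      simp at this)
    (by
      rintro I J ⟨hJ, hJl⟩ hIJ
      refine ⟨(Finset.card_le_card hIJ).trans hJ, fun hI => hJl ?_⟩
      have : I = J := Finset.eq_of_subset_of_card_le hIJ (by rw [h3 _ hI]; exact hJ)
      rwa [← this])
    (by
      rintro I J ⟨hI, hIl⟩ ⟨hJ, hJl⟩ hIJ
      obtain ⟨e, heJ, heI⟩ := Finset.exists_mem_notMem_of_card_lt_card hIJ
      by_cases hcard : I.card < 2
      · refine ⟨e, heJ, heI, ?_, fun h => ?_⟩
        · rw [Finset.card_insert_of_notMem heI]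
          omega
        · have := h3 _ h
          rw [Finset.card_insert_of_notMem heI] at this
          omega
      · have hI2 : I.card = 2 := by omega
        have hJ3 : J.card = 3 := by omega
        by_cases hsub : I ⊆ J
        · have : insert e I = J := Finset.eq_of_subset_of_card_le
            (Finset.insert_subset heJ hsub) (by rw [Finset.card_insert_of_notMem heI]; omega)
          exact ⟨e, heJ, heI, by rw [this]; exact hJ, by rw [this]; exact hJl⟩
        · have h2 : 2 ≤ (J \ I).card := by
            have hlt : (J ∩ I).card < I.card := by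
              refine Finset.card_lt_card (Finset.ssubset_iff_subset_ne.2
                ⟨Finset.inter_subset_right, fun h => hsub ?_⟩)
              rw [← h]
              exact Finset.inter_subset_left
            have := Finset.card_sdiff_add_card_inter J I
            omega
          obtain ⟨a, ha, b, hb, hab⟩ := Finset.one_lt_card.1 h2
          rw [Finset.mem_sdiff] at ha hb
          have hca := Finset.card_insert_of_notMem ha.2
          have hcb := Finset.card_insert_of_notMem hb.2
          by_cases hla : insert a I ∈ lines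
          · refine ⟨b, hb.1, hb.2, by omega, fun hlb => ?_⟩
            have hne : insert a I ≠ insert b I := by
              intro h
              have : a ∈ insert b I := h ▸ Finset.mem_insert_self a I
              rcases Finset.mem_insert.1 this with h' | h'
              · exact hab h'
              · exact ha.2 h'
            have h4 := h1 _ hla _ hlb hne
            have h5 : I ⊆ insert a I ∩ insert b I :=
              Finset.subset_inter (Finset.subset_insert _ _) (Finset.subset_insert _ _)
            have := Finset.card_le_card h5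
            omega
          · exact ⟨a, ha.1, ha.2, by omega, hla⟩)
    (fun _ _ => Set.subset_univ _)).matroid

/-- the seven lines of the Fano plane -/
def fLines : Finset (Finset (Fin 7)) :=
  {{0, 1, 3}, {0, 2, 4}, {1, 2, 5}, {0, 5, 6}, {1, 4, 6}, {2, 3, 6}, {3, 4, 5}}

set_option maxRecDepth 100000 in
theorem nfLines_card' : ∀ L ∈ nfLines, L.card = 3 := by decide

set_option maxRecDepth 100000 in
theorem fLines_card : ∀ L ∈ fLines, L.card = 3 := by decide

set_option maxRecDepth 100000 in
theorem nfLines_inter : ∀ L ∈ nfLines, ∀ L' ∈ nfLines, L ≠ L' → (L ∩ L').card ≤ 1 := by decide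

set_option maxRecDepth 100000 in
theorem fLines_inter : ∀ L ∈ fLines, ∀ L' ∈ fLines, L ≠ L' → (L ∩ L').card ≤ 1 := by decide

/-- the Fano matroid `F₇` -/
def fano : Matroid (Fin 7) := rank3 fLines fLines_card fLines_inter

/-- the non-Fano matroid `F₇⁻` -/
def nonFano : Matroid (Fin 7) := rank3 nfLines nfLines_card' nfLines_inter

/-- the uniform matroid `U_{k,n}` -/
def unif (k n : ℕ) : Matroid (Fin n) :=
  (IndepMatroid.ofFinset Set.univ (fun I => I.card ≤ k) (by simp)
    (fun _ _ hJ hIJ => (Finset.card_le_card hIJ).trans hJ)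
    (by
      intro I J hI hJ hIJ
      obtain ⟨e, heJ, heI⟩ := Finset.exists_mem_notMem_of_card_lt_card hIJ
      exact ⟨e, heJ, heI, by rw [Finset.card_insert_of_notMem heI]; omega⟩)
    (fun _ _ => Set.subset_univ _)).matroid

theorem rank3_E (lines : Finset (Finset (Fin 7))) (h3 : ∀ L ∈ lines, L.card = 3)
    (h1 : ∀ L ∈ lines, ∀ L' ∈ lines, L ≠ L' → (L ∩ L').card ≤ 1) :
    (rank3 lines h3 h1).E = Set.univ := rfl

theorem rank3_indep (lines : Finset (Finset (Fin 7))) (h3 : ∀ L ∈ lines, L.card = 3)
    (h1 : ∀ L ∈ lines, ∀ L' ∈ lines, L ≠ L' → (L ∩ L').card ≤ 1) (I : Finset (Fin 7)) :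
    (rank3 lines h3 h1).Indep (I : Set (Fin 7)) ↔ I.card ≤ 3 ∧ I ∉ lines := by
  unfold rank3
  rw [IndepMatroid.matroid_Indep]
  exact IndepMatroid.ofFinset_indep _ _ _ _ _ _

theorem unif_E (k n : ℕ) : (unif k n).E = Set.univ := rfl

theorem unif_indep (k n : ℕ) (I : Finset (Fin n)) :
    (unif k n).Indep (I : Set (Fin n)) ↔ I.card ≤ k := by
  unfold unif
  rw [IndepMatroid.matroid_Indep]
  exact IndepMatroid.ofFinset_indep _ _ _ _ _ _

end Pool.Agent.H76CF
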