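import Mathlib
import Pool.Agent.H76CF.Core
import Pool.Agent.H76CF.Info

/-!
# The order of an entropic multiple of the non-Fano rank function is odd
-/

set_option autoImplicit false

open scoped ENNReal

namespace Pool.Agent.H76CF

section

variable {ι : Type} {S : ι → Type} (p : PMF (∀ i, S i))

/-- restriction of a word to the coordinates in `A` -/
def res (A : Set ι) (x : ∀ i, S i) : ∀ i : A, S i := fun i => x i

/-- restriction from `A` to a subset `B` -/
def res2 {A B : Set ι} (h : B ⊆ A) (x : ∀ i : A, S i) : ∀ i : B, S i := fun i => x ⟨i, h i.2⟩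

theorem map_res2 {A B : Set ι} (h : B ⊆ A) :
    (p.map (res A)).map (res2 h) = p.map (res (S := S) B) := by
  rw [PMF.map_comp]
  rfl

theorem res_mem {A : Set ι} {w : ∀ i, S i} (hw : w ∈ p.support) :
    res A w ∈ (p.map (res A)).support := by
  rw [PMF.mem_support_map_iff]
  exact ⟨w, hw, rfl⟩

theorem det {A B : Set ι} (hBA : B ⊆ A)
    (hH : shannon (p.map (res A)) = shannon (p.map (res (S := S) B)))
    (hfin : shannon (p.map (res (S := S) A)) ≠ ⊤) :
    (∀ w ∈ p.support, ∀ w' ∈ p.support, (∀ i ∈ B, w i = w' i) → ∀ i ∈ A, w i = w' i) ∧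
    ∀ w ∈ p.support, (p.map (res A)) (res A w) = (p.map (res B)) (res B w) := by
  have h1 : shannon ((p.map (res A)).map (res2 hBA)) = shannon (p.map (res (S := S) A)) := by
    rw [map_res2, hH]
  refine ⟨?_, ?_⟩
  · intro w hw w' hw' h i hi
    have h2 := injOn_of_shannon (p.map (res A)) (res2 hBA) h1 hfin (res_mem p hw) (res_mem p hw')
      (funext fun j => h j j.2)
    exact congrFun h2 ⟨i, hi⟩
  · intro w hw
    have h2 := map_eq_of_shannon (p.map (res A)) (res2 hBA) h1 hfin _ (res_mem p hw)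
    rw [map_res2] at h2
    exact h2.symm

theorem ind {A B C : Set ι} (hBA : B ⊆ A) (hCA : C ⊆ A) (hA : A ⊆ B ∪ C)
    (hH : shannon (p.map (res (S := S) A)) =
      shannon (p.map (res (S := S) B)) + shannon (p.map (res (S := S) C)))
    (hfin : shannon (p.map (res (S := S) A)) ≠ ⊤) :
    (∀ w ∈ p.support, (p.map (res A)) (res A w) =
      (p.map (res B)) (res B w) * (p.map (res C)) (res C w)) ∧
    ∀ u ∈ p.support, ∀ v ∈ p.support, ∃ z ∈ p.support, (∀ i ∈ B, z i = u i) ∧
      ∀ i ∈ C, z i = v i := by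
  have hinj : ∀ c c' : (∀ i : A, S i), res2 hBA c = res2 hBA c' → res2 hCA c = res2 hCA c' →
      c = c' := by
    intro c c' h1 h2
    funext ⟨i, hi⟩
    rcases hA hi with h | h
    · exact congrFun h1 ⟨i, h⟩
    · exact congrFun h2 ⟨i, h⟩
  obtain ⟨h1, h2⟩ := indep_of_shannon (p.map (res A)) (res2 hBA) (res2 hCA) hinj
    (by rw [map_res2, map_res2]; exact hH) hfin
  rw [map_res2, map_res2] at h2
  refine ⟨?_, ?_⟩
  · intro w hw
    have h3 := h1 _ (res_mem p hw)
    rw [map_res2, map_res2] at h3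
    exact h3
  · intro u hu v hv
    obtain ⟨c, hc, hc1, hc2⟩ := h2 _ (res_mem p hu) _ (res_mem p hv)
    rw [PMF.mem_support_map_iff] at hc
    obtain ⟨z, hz, rfl⟩ := hc
    exact ⟨z, hz, fun i hi => congrFun hc1 ⟨i, hi⟩, fun i hi => congrFun hc2 ⟨i, hi⟩⟩

end

set_option maxRecDepth 100000 in
theorem nfLines_card : ∀ L ∈ nfLines, L.card = 3 := by decide

/-- an entropic multiple `log v * r` of the rank function of the non-Fano matroid has odd `v` -/
theorem odd_of_rank {ι : Type} {S : ι → Type} (p : PMF (∀ i, S i)) (c : Fin 7 → ι) (v : ℕ)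
    (hv : 2 ≤ v)
    (h1 : ∀ i : Fin 7, shannon (p.map (res (S := S) {c i})) = ENNReal.ofReal (Real.log v))
    (h2 : ∀ i j : Fin 7, i ≠ j →
      shannon (p.map (res (S := S) {c i, c j})) = ENNReal.ofReal (Real.log v * 2))
    (h3 : ∀ i j k : Fin 7, ({i, j, k} : Finset (Fin 7)) ∈ nfLines →
      shannon (p.map (res (S := S) {c i, c j, c k})) = ENNReal.ofReal (Real.log v * 2))
    (h4 : shannon (p.map (res (S := S) {c 0, c 1, c 2})) = ENNReal.ofReal (Real.log v * 3))
    (h5 : shannon (p.map (res (S := S) {c 3, c 4, c 5})) = ENNReal.ofReal (Real.log v * 3))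
    (h6 : shannon (p.map (res (S := S) {c 0, c 3, c 4, c 5})) = ENNReal.ofReal (Real.log v * 3)) :
    Odd v := by
  have hl : 0 ≤ Real.log v := Real.log_natCast_nonneg v
  -- every line is determined by two of its points
  have hne : ∀ i j k : Fin 7, ({i, j, k} : Finset (Fin 7)) ∈ nfLines → i ≠ j := by
    intro i j k h hij
    subst hij
    have hc := nfLines_card
    have := hc _ h
    have h' : ({i, i, k} : Finset (Fin 7)).card ≤ 2 := by
      rw [Finset.insert_eq_of_mem (by simp)]
      exact Finset.card_le_two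
    omega
  have hline : ∀ i j k : Fin 7, ({i, j, k} : Finset (Fin 7)) ∈ nfLines →
      (∀ w ∈ p.support, ∀ w' ∈ p.support, w (c i) = w' (c i) → w (c j) = w' (c j) →
        w (c k) = w' (c k)) ∧
      ∀ w ∈ p.support, (p.map (res {c i, c j, c k})) (res {c i, c j, c k} w) =
        (p.map (res {c i, c j})) (res {c i, c j} w) := by
    intro i j k h
    have hsub : ({c i, c j} : Set ι) ⊆ {c i, c j, c k} := by
      intro x hx
      simp only [Set.mem_insert_iff, Set.mem_singleton_iff] at hx ⊢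
      tauto
    obtain ⟨d1, d2⟩ := det p hsub ((h3 i j k h).trans (h2 i j (hne i j k h)).symm)
      (by rw [h3 i j k h]; exact ENNReal.ofReal_ne_top)
    refine ⟨?_, d2⟩
    intro w hw w' hw' e1 e2
    refine d1 w hw w' hw' ?_ (c k) (by simp)
    intro x hx
    simp only [Set.mem_insert_iff, Set.mem_singleton_iff] at hx
    rcases hx with rfl | rfl
    · exact e1
    · exact e2
  have hpair : ∀ i j : Fin 7, i ≠ j →
      (∀ w ∈ p.support, (p.map (res {c i, c j})) (res {c i, c j} w) =
        (p.map (res {c i})) (res {c i} w) * (p.map (res {c j})) (res {c j} w)) ∧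
      ∀ u ∈ p.support, ∀ v ∈ p.support, ∃ z ∈ p.support, z (c i) = u (c i) ∧
        z (c j) = v (c j) := by
    intro i j hij
    obtain ⟨d1, d2⟩ := ind p (A := {c i, c j}) (B := {c i}) (C := {c j})
      (by intro x hx; simp only [Set.mem_singleton_iff] at hx; simp [hx])
      (by intro x hx; simp only [Set.mem_singleton_iff] at hx; simp [hx])
      (by
        intro x hx
        simp only [Set.mem_insert_iff, Set.mem_singleton_iff, Set.mem_union] at hx ⊢
        exact hx)
      (by rw [h2 i j hij, h1 i, h1 j, ← ENNReal.ofReal_add hl hl]; congr 1; ring)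
      (by rw [h2 i j hij]; exact ENNReal.ofReal_ne_top)
    refine ⟨d1, ?_⟩
    intro u hu v hv
    obtain ⟨z, hz, e1, e2⟩ := d2 u hu v hv
    exact ⟨z, hz, e1 _ rfl, e2 _ rfl⟩
  have hfull : ∀ u ∈ p.support, ∀ v ∈ p.support, ∀ w ∈ p.support, ∃ z ∈ p.support,
      z (c 0) = u (c 0) ∧ z (c 1) = v (c 1) ∧ z (c 2) = w (c 2) := by
    intro u hu v hv w hw
    obtain ⟨z, hz, e1, e2⟩ := (hpair 0 1 (by decide)).2 u hu v hv
    obtain ⟨d1, d2⟩ := ind p (A := {c 0, c 1, c 2}) (B := {c 0, c 1}) (C := {c 2})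
      (by
        intro x hx
        simp only [Set.mem_insert_iff, Set.mem_singleton_iff] at hx ⊢
        tauto)
      (by intro x hx; simp only [Set.mem_singleton_iff] at hx; simp [hx])
      (by
        intro x hx
        simp only [Set.mem_insert_iff, Set.mem_singleton_iff, Set.mem_union] at hx ⊢
        tauto)
      (by
        rw [h4, h2 0 1 (by decide), h1 2, ← ENNReal.ofReal_add (by positivity) hl]
        congr 1; ring)
      (by rw [h4]; exact ENNReal.ofReal_ne_top)
    obtain ⟨y, hy, f1, f2⟩ := d2 z hz w hw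
    exact ⟨y, hy, (f1 (c 0) (by simp)).trans e1, (f1 (c 1) (by simp)).trans e2, f2 _ rfl⟩
  have hbase : ∀ w ∈ p.support, ∀ w' ∈ p.support, w (c 3) = w' (c 3) → w (c 4) = w' (c 4) →
      w (c 5) = w' (c 5) → w (c 0) = w' (c 0) := by
    intro w hw w' hw' e3 e4 e5
    obtain ⟨d1, -⟩ := det p (A := {c 0, c 3, c 4, c 5}) (B := {c 3, c 4, c 5})
      (by
        intro x hx
        simp only [Set.mem_insert_iff, Set.mem_singleton_iff] at hx ⊢
        tauto)
      (h6.trans h5.symm) (by rw [h6]; exact ENNReal.ofReal_ne_top)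
    refine d1 w hw w' hw' ?_ (c 0) (by simp)
    intro x hx
    simp only [Set.mem_insert_iff, Set.mem_singleton_iff] at hx
    rcases hx with rfl | rfl | rfl
    · exact e3
    · exact e4
    · exact e5
  -- uniformity of coordinate `0`
  have hk : ∀ i j k : Fin 7, ({i, j, k} : Finset (Fin 7)) ∈ nfLines →
      ({i, k, j} : Finset (Fin 7)) ∈ nfLines → ∀ w ∈ p.support,
      (p.map (res {c j})) (res {c j} w) = (p.map (res {c k})) (res {c k} w) := by
    intro i j k hL hL' w hw
    have a1 := (hline i j k hL).2 w hw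
    have a2 := (hline i k j hL').2 w hw
    rw [(hpair i j (hne i j k hL)).1 w hw] at a1
    rw [(hpair i k (hne i k j hL')).1 w hw] at a2
    have hset : ({c i, c j, c k} : Set ι) = {c i, c k, c j} := by
      ext x
      simp only [Set.mem_insert_iff, Set.mem_singleton_iff]
      tauto
    have a3 : (p.map (res {c i, c j, c k})) (res {c i, c j, c k} w) =
        (p.map (res {c i, c k, c j})) (res {c i, c k, c j} w) := by rw [hset]
    rw [a1, a2] at a3
    have hi0 : (p.map (res {c i})) (res {c i} w) ≠ 0 :=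
      (PMF.mem_support_iff _ _).1 (res_mem p hw)
    have hi1 : (p.map (res {c i})) (res {c i} w) ≠ ⊤ :=
      ne_top_of_le_ne_top ENNReal.one_ne_top (PMF.coe_le_one _ _)
    exact (ENNReal.mul_right_inj hi0 hi1).1 a3
  have h01 : ∀ u ∈ p.support, ∀ w ∈ p.support,
      (p.map (res {c 0})) (res {c 0} u) = (p.map (res {c 1})) (res {c 1} w) := by
    intro u hu w hw
    obtain ⟨z, hz, z0, z1⟩ := (hpair 0 1 (by decide)).2 u hu w hw
    have b1 := hk 0 1 3 (by decide) (by decide) z hz
    have b2 := hk 1 0 3 (by decide) (by decide) z hz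
    have c1 : res {c 0} u = res {c 0} z := by
      funext ⟨x, hx⟩
      obtain rfl : x = c 0 := hx
      exact z0.symm
    have c2 : res {c 1} w = res {c 1} z := by
      funext ⟨x, hx⟩
      obtain rfl : x = c 1 := hx
      exact z1.symm
    rw [c1, c2, b1, b2]
  obtain ⟨o, ho⟩ := p.support_nonempty
  have hunif : ∀ a ∈ (p.map (res {c 0})).support,
      (p.map (res {c 0})) a = (p.map (res {c 1})) (res {c 1} o) := by
    intro a ha
    rw [PMF.mem_support_map_iff] at ha
    obtain ⟨u, hu, rfl⟩ := ha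
    exact h01 u hu o ho
  have hcard := card_of_uniform _ _ hunif v (by omega) (h1 0)
  -- pass to words indexed by `Fin 7`
  set S' : Fin 7 → Type := fun i => S (c i) with hS'
  set cv : (∀ i, S i) → (∀ i, S' i) := fun w i => w (c i) with hcv
  set W : Set (∀ i, S' i) := cv '' p.support with hW
  have hcard2 : ((fun w : ∀ i, S' i => w 0) '' W).encard = v := by
    rw [← hcard, PMF.support_map, hW, Set.image_image]
    have hev : Function.Injective (fun (a : ∀ i : ({c 0} : Set ι), S i) => a ⟨c 0, rfl⟩) := by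
      intro a b hab
      funext ⟨x, hx⟩
      obtain rfl : x = c 0 := hx
      exact hab
    rw [← hev.encard_image, Set.image_image]
    rfl
  have hfin : ((fun w : ∀ i, S' i => w 0) '' W).Finite := by
    rw [← Set.encard_lt_top_iff, hcard2]
    exact ENat.natCast_lt_top v
  have hodd := odd_card (W := W) (o := cv o) ⟨o, ho, rfl⟩
    (by
      rintro i j k hL _ ⟨w, hw, rfl⟩ _ ⟨w', hw', rfl⟩ e1 e2
      exact (hline i j k hL).1 w hw w' hw' e1 e2)
    (by
      rintro i j hij _ ⟨w, hw, rfl⟩ _ ⟨w', hw', rfl⟩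
      obtain ⟨z, hz, e1, e2⟩ := (hpair i j hij).2 w hw w' hw'
      exact ⟨cv z, ⟨z, hz, rfl⟩, e1, e2⟩)
    (by
      rintro _ ⟨u, hu, rfl⟩ _ ⟨w, hw, rfl⟩ _ ⟨w', hw', rfl⟩
      obtain ⟨z, hz, e1, e2, e3⟩ := hfull u hu w hw w' hw'
      exact ⟨cv z, ⟨z, hz, rfl⟩, e1, e2, e3⟩)
    (by
      rintro _ ⟨w, hw, rfl⟩ _ ⟨w', hw', rfl⟩ e3 e4 e5
      exact hbase w hw w' hw' e3 e4 e5)
    hfin
  have : ((fun w : ∀ i, S' i => w 0) '' W).ncard = v := by
    rw [Set.ncard, hcard2]
    rfl
  rwa [this] at hodd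

end Pool.Agent.H76CF
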