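import Mathlib
import Pool.Agent.H76CF.Struct
import Pool.Agent.H76CF.Mat

/-!
# p-characteristic sets, and the p-characteristic set of the non-Fano matroid
-/

set_option autoImplicit false

open scoped ENNReal

namespace Pool.Agent.H76CF

/-- `h` is the entropy function `A ↦ H(X_A)` of a discrete random vector `X = (X_i : i ∈ ι)`, given
by its law `p`, a discrete probability distribution on a product of sets; all the entropies are
finite -/
def IsEntropic {ι : Type} (h : Set ι → ℝ) : Prop :=
  ∃ (S : ι → Type) (p : PMF (∀ i, S i)), ∀ A : Set ι,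
    shannon (p.map fun x (i : A) => x i) ≠ ⊤ ∧
      (shannon (p.map fun x (i : A) => x i)).toReal = h A

/-- the p-characteristic set of `M`: the `v ≥ 2` such that `log v` times the rank function of `M`
is an entropy function -/
def pChar {α : Type} (M : Matroid α) : Set ℕ :=
  {v | 2 ≤ v ∧ IsEntropic fun A : Set M.E => Real.log v * (M.eRk (Subtype.val '' A)).toNat}

theorem nf_indep (I : Finset (Fin 7)) :
    nonFano.Indep (I : Set (Fin 7)) ↔ I.card ≤ 3 ∧ I ∉ nfLines := rank3_indep _ _ _ I

theorem f_indep (I : Finset (Fin 7)) :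
    fano.Indep (I : Set (Fin 7)) ↔ I.card ≤ 3 ∧ I ∉ fLines := rank3_indep _ _ _ I

theorem nf_ne {i j k : Fin 7} (h : ({i, j, k} : Finset (Fin 7)) ∈ nfLines) : i ≠ j := by
  intro hij
  subst hij
  have h3 := nfLines_card' _ h
  have h' : ({i, i, k} : Finset (Fin 7)).card ≤ 2 := by
    rw [Finset.insert_eq_of_mem (by simp)]
    exact Finset.card_le_two
  omega

theorem nf_pair {I : Finset (Fin 7)} (h : I.card = 2) : I ∉ nfLines := by
  intro h'
  have h3 := nfLines_card' _ h'
  rw [h] at h3
  exact absurd h3 (by norm_num)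

theorem eRk_indep {I : Finset (Fin 7)} (h : I.card ≤ 3 ∧ I ∉ nfLines) :
    (nonFano.eRk (I : Set (Fin 7))).toNat = I.card := by
  rw [((nf_indep I).2 h).eRk_eq_encard, Set.encard_coe_eq_coe_finsetCard]
  rfl

theorem eRk_eq {I J : Finset (Fin 7)} (hIJ : I ⊆ J) (h : I.card ≤ 3 ∧ I ∉ nfLines)
    (hJ : ∀ K : Finset (Fin 7), K ⊆ J → K.card ≤ 3 → K ∉ nfLines → K.card ≤ I.card) :
    (nonFano.eRk (J : Set (Fin 7))).toNat = I.card := by
  have h1 : nonFano.eRk (J : Set (Fin 7)) = I.card := by
    apply le_antisymm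
    · rw [Matroid.eRk_le_iff]
      intro K hK hKi
      have hK2 : (K.toFinite.toFinset : Set (Fin 7)) = K := by simp
      rw [← hK2] at hKi
      have h2 := (nf_indep _).1 hKi
      have h3 := hJ K.toFinite.toFinset (by
        intro x hx
        rw [Set.Finite.mem_toFinset] at hx
        exact_mod_cast hK hx) h2.1 h2.2
      rw [← hK2, Set.encard_coe_eq_coe_finsetCard]
      exact_mod_cast h3
    · have h2 := nonFano.eRk_mono (show (I : Set (Fin 7)) ⊆ J by exact_mod_cast hIJ)
      rwa [((nf_indep I).2 h).eRk_eq_encard, Set.encard_coe_eq_coe_finsetCard] at h2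
  rw [h1]
  rfl

theorem odd_of_mem_pChar {v : ℕ} (hv : v ∈ pChar nonFano) : Odd v := by
  obtain ⟨hv2, S, p, hp⟩ := hv
  have hE : ∀ i : Fin 7, i ∈ nonFano.E := fun i => Set.mem_univ i
  have key : ∀ (A : Set nonFano.E) (J : Finset (Fin 7)) (n : ℕ), Subtype.val '' A = (J : Set _) →
      (nonFano.eRk (J : Set (Fin 7))).toNat = n →
      shannon (p.map (res (S := S) A)) = ENNReal.ofReal (Real.log v * n) := by
    intro A J n hA hn
    have h1 := hp A
    beta_reduce at h1
    rw [hA, hn] at h1
    rw [← h1.2, ENNReal.ofReal_toReal h1.1]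
    rfl
  have hL := nfLines_card'
  refine odd_of_rank p (fun i => ⟨i, hE i⟩) v hv2 ?_ ?_ ?_ ?_ ?_ ?_
  · intro i
    have := key {⟨i, hE i⟩} {i} 1 (by simp) (eRk_indep (I := {i}) ⟨by simp, fun h => by
      have := hL _ h
      simp at this⟩)
    simpa using this
  · intro i j hij
    have hc := Finset.card_pair hij
    have hl : ({i, j} : Finset (Fin 7)) ∉ nfLines := nf_pair hc
    have := key {⟨i, hE i⟩, ⟨j, hE j⟩} {i, j} 2 (by simp [Set.image_insert_eq])
      (by rw [eRk_indep (I := {i, j}) ⟨by rw [hc]; norm_num, hl⟩, hc])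
    simpa using this
  · intro i j k hijk
    have hij : i ≠ j := nf_ne hijk
    have hc := Finset.card_pair hij
    have hl : ({i, j} : Finset (Fin 7)) ∉ nfLines := nf_pair hc
    have hr : (nonFano.eRk (({i, j, k} : Finset (Fin 7)) : Set (Fin 7))).toNat = 2 := by
      rw [← hc]
      refine eRk_eq (I := {i, j}) (J := {i, j, k}) ?_ ⟨by rw [hc]; norm_num, hl⟩ ?_
      · intro x hx
        rw [Finset.mem_insert, Finset.mem_singleton] at hx
        rcases hx with rfl | rfl
        · exact Finset.mem_insert_self _ _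
        · exact Finset.mem_insert_of_mem (Finset.mem_insert_self _ _)
      · intro K hK hK3 hKl
        rw [hc]
        by_contra hcon
        push Not at hcon
        have hKe : K = {i, j, k} := Finset.eq_of_subset_of_card_le hK (by
          rw [hL _ hijk]
          exact hcon)
        exact hKl (hKe ▸ hijk)
    have := key {⟨i, hE i⟩, ⟨j, hE j⟩, ⟨k, hE k⟩} {i, j, k} 2 (by simp [Set.image_insert_eq]) hr
    simpa using this
  · have := key {⟨0, hE 0⟩, ⟨1, hE 1⟩, ⟨2, hE 2⟩} {0, 1, 2} 3 (by simp [Set.image_insert_eq])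
      (eRk_indep (I := {0, 1, 2}) ⟨by decide, by decide⟩)
    simpa using this
  · have := key {⟨3, hE 3⟩, ⟨4, hE 4⟩, ⟨5, hE 5⟩} {3, 4, 5} 3 (by simp [Set.image_insert_eq])
      (eRk_indep (I := {3, 4, 5}) ⟨by decide, by decide⟩)
    simpa using this
  · have := key {⟨0, hE 0⟩, ⟨3, hE 3⟩, ⟨4, hE 4⟩, ⟨5, hE 5⟩} {0, 3, 4, 5} 3
      (by simp [Set.image_insert_eq])
      (eRk_eq (I := {3, 4, 5}) (J := {0, 3, 4, 5}) (by decide) ⟨by decide, by decide⟩
        (fun K _ hK _ => hK))
    simpa using this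

end Pool.Agent.H76CF
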