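import Mathlib
import Pool.Agent.H76CF.Odd

/-!
# Minors of the non-Fano matroid, and isomorphisms
-/

set_option autoImplicit false

open scoped Matroid

namespace Pool.Agent.H76CF

/-- `M` and `N` are isomorphic: a bijection of the ground sets preserves independence -/
def Iso {α β : Type} (M : Matroid α) (N : Matroid β) : Prop :=
  ∃ e : M.E ≃ N.E, ∀ I : Set M.E, M.Indep (Subtype.val '' I) ↔ N.Indep (Subtype.val '' (e '' I))

theorem unif_indep_set (k n : ℕ) (X : Set (Fin n)) : (unif k n).Indep X ↔ X.ncard ≤ k := by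
  have h : (X.toFinite.toFinset : Set (Fin n)) = X := by simp
  rw [← h, unif_indep, Set.ncard_coe_finset]

theorem iso_unif {N : Matroid (Fin 7)} {k n : ℕ} (h : Iso N (unif k n)) :
    N.E.ncard = n ∧ ∀ J : Finset (Fin 7), (J : Set (Fin 7)) ⊆ N.E →
      (N.Indep J ↔ J.card ≤ k) := by
  obtain ⟨e, he⟩ := h
  refine ⟨?_, ?_⟩
  · rw [← Nat.card_coe_set_eq, Nat.card_congr e, unif_E]
    simp
  · intro J hJ
    have h1 : Subtype.val '' (Subtype.val ⁻¹' (J : Set (Fin 7)) : Set N.E) = (J : Set (Fin 7)) := by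
      rw [Subtype.image_preimage_coe, Set.inter_eq_right.2 hJ]
    have h2 := he (Subtype.val ⁻¹' (J : Set (Fin 7)))
    rw [h1, unif_indep_set, Set.ncard_image_of_injective _ Subtype.val_injective,
      Set.ncard_image_of_injective _ e.injective] at h2
    rw [h2, ← Set.ncard_coe_finset J]
    conv_rhs => rw [← h1]
    rw [Set.ncard_image_of_injective _ Subtype.val_injective]

theorem minor_indep (c d J : Finset (Fin 7)) (hc : c.card ≤ 2) :
    (nonFano ／ (c : Set (Fin 7)) ＼ (d : Set (Fin 7))).Indep (J : Set (Fin 7)) ↔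
      (Disjoint J c ∧ (J ∪ c).card ≤ 3 ∧ J ∪ c ∉ nfLines) ∧ Disjoint J d := by
  have hci : nonFano.Indep (c : Set (Fin 7)) := (nf_indep c).2 ⟨by omega, fun h => by
    have h3 := nfLines_card' _ h
    omega⟩
  rw [Matroid.delete_indep_iff, hci.contract_indep_iff]
  have h2 : nonFano.Indep ((J : Set (Fin 7)) ∪ c) ↔ (J ∪ c).card ≤ 3 ∧ J ∪ c ∉ nfLines := by
    rw [← nf_indep, Finset.coe_union]
  rw [h2, Finset.disjoint_coe, Finset.disjoint_coe]

theorem minor_data {N : Matroid (Fin 7)} (h : N ≤m nonFano) :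
    ∃ c d : Finset (Fin 7), Disjoint c d ∧ N = nonFano ／ (c : Set (Fin 7)) ＼ (d : Set (Fin 7)) ∧
      N.E = (((Finset.univ \ c) \ d : Finset (Fin 7)) : Set (Fin 7)) := by
  obtain ⟨C, D, hC, hD, hCD, hN⟩ := h.exists_eq_contract_delete_disjoint
  refine ⟨C.toFinite.toFinset, D.toFinite.toFinset, ?_, ?_, ?_⟩
  · rw [← Finset.disjoint_coe]
    simpa using hCD
  · simpa using hN
  · rw [hN, Matroid.delete_ground, Matroid.contract_ground]
    simp [nonFano, rank3_E]

theorem card_data {c d : Finset (Fin 7)} (h : Disjoint c d)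
    (h5 : (((Finset.univ \ c) \ d : Finset (Fin 7)) : Set (Fin 7)).ncard = 5) :
    (c = ∅ ∧ ∃ e f, e ≠ f ∧ d = {e, f}) ∨ (∃ e f, e ≠ f ∧ c = {e} ∧ d = {f}) ∨
      (d = ∅ ∧ ∃ e f, e ≠ f ∧ c = {e, f}) := by
  rw [Set.ncard_coe_finset, sdiff_sdiff_left, Finset.sup_eq_union, Finset.card_sdiff_of_subset
    (Finset.subset_univ _), Finset.card_univ, Fintype.card_fin] at h5
  have hcd : c.card + d.card = 2 := by
    rw [← Finset.card_union_of_disjoint h]
    have := Finset.card_le_univ (c ∪ d)
    rw [Fintype.card_fin] at this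
    omega
  rcases Nat.lt_or_ge c.card 1 with h0 | h0
  · have hc : c = ∅ := Finset.card_eq_zero.1 (by omega)
    subst hc
    have hd : d.card = 2 := by simpa using hcd
    obtain ⟨e, f, hef, hd⟩ := Finset.card_eq_two.1 hd
    exact Or.inl ⟨rfl, e, f, hef, hd⟩
  · rcases Nat.lt_or_ge c.card 2 with h1 | h1
    · obtain ⟨e, he⟩ := Finset.card_eq_one.1 (show c.card = 1 by omega)
      obtain ⟨f, hf⟩ := Finset.card_eq_one.1 (show d.card = 1 by omega)
      refine Or.inr (Or.inl ⟨e, f, ?_, he, hf⟩)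
      rintro rfl
      rw [he, hf] at h
      simp at h
    · obtain ⟨e, f, hef, he⟩ := Finset.card_eq_two.1 (show c.card = 2 by omega)
      exact Or.inr (Or.inr ⟨Finset.card_eq_zero.1 (by omega), e, f, hef, he⟩)

/-- some triples that are not lines -/
def cand : Finset (Finset (Fin 7)) :=
  {{0, 1, 2}, {3, 4, 5}, {0, 1, 6}, {0, 3, 6}, {2, 4, 5}, {1, 3, 5}, {2, 4, 6}}

/-- some pairs -/
def cand2 : Finset (Finset (Fin 7)) := {{0, 1}, {2, 3}, {4, 5}}

set_option maxRecDepth 100000 in
theorem cand_prop : ∀ e f : Fin 7, ∃ J ∈ cand, J.card = 3 ∧ J ∉ nfLines ∧ e ∉ J ∧ f ∉ J := by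
  decide

set_option maxRecDepth 100000 in
theorem cand2_prop : ∀ e f : Fin 7, ∃ J ∈ cand2, J.card = 2 ∧ e ∉ J ∧ f ∉ J := by
  decide

set_option maxRecDepth 100000 in
theorem line_through : ∀ e f : Fin 7, e ≠ f → ∃ L ∈ nfLines, e ∈ L ∧ f ∉ L := by
  decide

set_option maxRecDepth 100000 in
theorem line_avoiding : ∀ e f : Fin 7, ∃ L ∈ nfLines, e ∉ L ∧ f ∉ L := by
  decide

theorem not_iso_unif {N : Matroid (Fin 7)} (h : N ≤m nonFano) (k : ℕ) (hk : k = 2 ∨ k = 3) :
    ¬ Iso N (unif k 5) := by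
  intro hiso
  obtain ⟨h5, hJ⟩ := iso_unif hiso
  obtain ⟨c, d, hcd, hN, hE⟩ := minor_data h
  rw [hE] at h5 hJ
  have hsub : ∀ J : Finset (Fin 7), Disjoint J c → Disjoint J d →
      (J : Set (Fin 7)) ⊆ (((Finset.univ \ c) \ d : Finset (Fin 7)) : Set (Fin 7)) := by
    intro J h1 h2
    rw [Finset.coe_subset]
    intro x hx
    simp only [Finset.mem_sdiff, Finset.mem_univ, true_and]
    exact ⟨Finset.disjoint_left.1 h1 hx, Finset.disjoint_left.1 h2 hx⟩
  rw [hN] at hJ
  rcases card_data hcd h5 with ⟨rfl, e, f, hef, rfl⟩ | ⟨e, f, hef, rfl, rfl⟩ | ⟨rfl, e, f, hef, rfl⟩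
  · rcases hk with rfl | rfl
    · obtain ⟨J, -, h3, hl, he, hf⟩ := cand_prop e f
      have hd : Disjoint J ({e, f} : Finset (Fin 7)) := by
        rw [Finset.disjoint_right]
        simp [he, hf]
      have h1 := (minor_indep ∅ {e, f} J (by simp)).2 ⟨⟨by simp, by simp [h3], by simpa using hl⟩, hd⟩
      have h2 := (hJ J (hsub J (by simp) hd)).1 h1
      omega
    · obtain ⟨J, hJl, he, hf⟩ := line_avoiding e f
      have hd : Disjoint J ({e, f} : Finset (Fin 7)) := by
        rw [Finset.disjoint_right]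
        simp [he, hf]
      have h3 := nfLines_card' _ hJl
      have h1 := (hJ J (hsub J (by simp) hd)).2 h3.le
      have h2 := (minor_indep ∅ {e, f} J (by simp)).1 h1
      exact h2.1.2.2 (by simpa using hJl)
  · rcases hk with rfl | rfl
    · obtain ⟨L, hL, heL, hfL⟩ := line_through e f hef
      have hc : Disjoint (L.erase e) ({e} : Finset (Fin 7)) := by simp
      have hd : Disjoint (L.erase e) ({f} : Finset (Fin 7)) := by simp [hfL]
      have hu : L.erase e ∪ {e} = L := by
        rw [Finset.union_comm, ← Finset.insert_eq, Finset.insert_erase heL]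
      have h3 := nfLines_card' _ hL
      have h1 := (hJ (L.erase e) (hsub _ hc hd)).2 (by
        rw [Finset.card_erase_of_mem heL]
        omega)
      have h2 := (minor_indep {e} {f} (L.erase e) (by simp)).1 h1
      rw [hu] at h2
      exact h2.1.2.2 hL
    · obtain ⟨J, -, h3, hl, he, hf⟩ := cand_prop e f
      have hc : Disjoint J ({e} : Finset (Fin 7)) := by simp [he]
      have hd : Disjoint J ({f} : Finset (Fin 7)) := by simp [hf]
      have h1 := (hJ J (hsub _ hc hd)).2 h3.le
      have h2 := (minor_indep {e} {f} J (by simp)).1 h1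
      have h4 := h2.1.2.1
      rw [Finset.card_union_of_disjoint hc, h3, Finset.card_singleton] at h4
      omega
  · rcases hk with rfl | rfl
    · obtain ⟨J, -, h3, he, hf⟩ := cand2_prop e f
      have hc : Disjoint J ({e, f} : Finset (Fin 7)) := by
        rw [Finset.disjoint_right]
        simp [he, hf]
      have h1 := (hJ J (hsub _ hc (by simp))).2 h3.le
      have h2 := (minor_indep {e, f} ∅ J (by rw [Finset.card_pair hef])).1 h1
      have h4 := h2.1.2.1
      rw [Finset.card_union_of_disjoint hc, h3, Finset.card_pair hef] at h4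
      omega
    · obtain ⟨J, -, h3, hl, he, hf⟩ := cand_prop e f
      have hc : Disjoint J ({e, f} : Finset (Fin 7)) := by
        rw [Finset.disjoint_right]
        simp [he, hf]
      have h1 := (hJ J (hsub _ hc (by simp))).2 h3.le
      have h2 := (minor_indep {e, f} ∅ J (by rw [Finset.card_pair hef])).1 h1
      have h4 := h2.1.2.1
      rw [Finset.card_union_of_disjoint hc, h3, Finset.card_pair hef] at h4
      omega

/-- a minor of the non-Fano matroid on seven elements is the non-Fano matroid -/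
theorem eq_nonFano {N : Matroid (Fin 7)} (h : N ≤m nonFano) {P : Matroid (Fin 7)}
    (hP : P.E = Set.univ) (hi : Iso N P) : N = nonFano := by
  obtain ⟨e, -⟩ := hi
  have h7 : N.E.ncard = 7 := by
    rw [← Nat.card_coe_set_eq, Nat.card_congr e, hP]
    simp
  have : N.E = Set.univ := by
    apply Set.eq_of_subset_of_ncard_le (Set.subset_univ _)
    rw [h7, Set.ncard_univ]
    simp
  exact (h.eq_of_ground_subset (by rw [this]; exact Set.subset_univ _)).symm

/-- pulling a set back along an isomorphism -/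
theorem pull {P : Matroid (Fin 7)} (hi : Iso nonFano P) :
    ∃ F : Finset (Fin 7) → Finset (Fin 7), ∀ J : Finset (Fin 7), (J : Set (Fin 7)) ⊆ P.E →
      (F J).card = J.card ∧ (nonFano.Indep (F J : Set (Fin 7)) ↔ P.Indep (J : Set (Fin 7))) ∧
      ∀ K : Finset (Fin 7), (K : Set (Fin 7)) ⊆ P.E → F J = F K → J = K := by
  obtain ⟨e, he⟩ := hi
  refine ⟨fun J => (Subtype.val '' (e.symm '' (Subtype.val ⁻¹' (J : Set (Fin 7))))).toFinite.toFinset,
    fun J hJ => ⟨?_, ?_, ?_⟩⟩
  · rw [← Set.ncard_eq_toFinset_card, Set.ncard_image_of_injective _ Subtype.val_injective,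
      Set.ncard_image_of_injective _ e.symm.injective, ← Set.ncard_coe_finset J]
    have h1 : Subtype.val '' (Subtype.val ⁻¹' (J : Set (Fin 7)) : Set P.E) = (J : Set (Fin 7)) := by
      rw [Subtype.image_preimage_coe, Set.inter_eq_right.2 hJ]
    conv_rhs => rw [← h1]
    rw [Set.ncard_image_of_injective _ Subtype.val_injective]
  · have h1 : Subtype.val '' (Subtype.val ⁻¹' (J : Set (Fin 7)) : Set P.E) = (J : Set (Fin 7)) := by
      rw [Subtype.image_preimage_coe, Set.inter_eq_right.2 hJ]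
    have h2 := he (e.symm '' (Subtype.val ⁻¹' (J : Set (Fin 7))))
    rw [← Set.image_comp e e.symm, Equiv.self_comp_symm, Set.image_id, h1] at h2
    rw [Set.Finite.coe_toFinset]
    exact h2
  · intro K hK hJK
    have h1 : Subtype.val '' (Subtype.val ⁻¹' (J : Set (Fin 7)) : Set P.E) = (J : Set (Fin 7)) := by
      rw [Subtype.image_preimage_coe, Set.inter_eq_right.2 hJ]
    have h2 : Subtype.val '' (Subtype.val ⁻¹' (K : Set (Fin 7)) : Set P.E) = (K : Set (Fin 7)) := by
      rw [Subtype.image_preimage_coe, Set.inter_eq_right.2 hK]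
    have h3 := congrArg (fun X : Finset (Fin 7) => (X : Set (Fin 7))) hJK
    simp only [Set.Finite.coe_toFinset] at h3
    have h4 := (Set.image_injective.2 Subtype.val_injective) h3
    have h5 := (Set.image_injective.2 e.symm.injective) h4
    rw [h5, h2] at h1
    exact_mod_cast h1.symm

theorem not_iso_fano {N : Matroid (Fin 7)} (h : N ≤m nonFano) : ¬ Iso N fano := by
  intro hi
  have := eq_nonFano h (rank3_E _ _ _) hi
  subst this
  obtain ⟨F, hF⟩ := pull hi
  have hsub : ∀ J : Finset (Fin 7), (J : Set (Fin 7)) ⊆ fano.E := fun J => Set.subset_univ _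
  have hle : fLines.card ≤ nfLines.card := by
    apply Finset.card_le_card_of_injOn F
    · intro L hL
      obtain ⟨h1, h2, -⟩ := hF L (hsub L)
      have h3 := fLines_card L hL
      have h4 : ¬ fano.Indep (L : Set (Fin 7)) := fun h => ((f_indep L).1 h).2 hL
      rw [← h2, nf_indep, h1, h3] at h4
      by_contra hcon
      exact h4 ⟨le_rfl, hcon⟩
    · intro L _ K _ hLK
      exact (hF L (hsub L)).2.2 K (hsub K) hLK
  have e1 : fLines.card = 7 := by decide
  have e2 : nfLines.card = 6 := by decide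
  omega

theorem not_iso_dual {N : Matroid (Fin 7)} (h : N ≤m nonFano) : ¬ Iso N fano✶ := by
  intro hi
  have hPE : (fano✶).E = Set.univ := rank3_E fLines fLines_card fLines_inter
  have := eq_nonFano h hPE hi
  subst this
  obtain ⟨F, hF⟩ := pull hi
  have hb : fano.IsBase ((({0, 1, 2} : Finset (Fin 7)) : Set (Fin 7))) := by
    rw [Matroid.isBase_iff_maximal_indep]
    refine ⟨(f_indep _).2 ⟨by decide, by decide⟩, ?_⟩
    intro X hX hsub
    have hX2 : (X.toFinite.toFinset : Set (Fin 7)) = X := by simp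
    rw [← hX2] at hX hsub ⊢
    have h1 := ((f_indep _).1 hX).1
    have h2 : ({0, 1, 2} : Finset (Fin 7)) ⊆ X.toFinite.toFinset := by exact_mod_cast hsub
    have hc3 : ({0, 1, 2} : Finset (Fin 7)).card = 3 := by decide
    have h3 := Finset.eq_of_subset_of_card_le h2 (by rw [hc3]; exact h1)
    rw [← h3]
  have hd : (fano✶).Indep ((({3, 4, 5, 6} : Finset (Fin 7)) : Set (Fin 7))) := by
    have h1 : (fano✶).IsBase (fano.E \ (({0, 1, 2} : Finset (Fin 7)) : Set (Fin 7))) :=
      hb.compl_isBase_dual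
    have h2 : fano.E \ (({0, 1, 2} : Finset (Fin 7)) : Set (Fin 7)) =
        (({3, 4, 5, 6} : Finset (Fin 7)) : Set (Fin 7)) := by
      have hfE : fano.E = ((Finset.univ : Finset (Fin 7)) : Set (Fin 7)) := by
        rw [Finset.coe_univ]
        rfl
      rw [hfE, ← Finset.coe_sdiff]
      congr 1
    rw [h2] at h1
    exact h1.indep
  obtain ⟨h1, h2, -⟩ := hF {3, 4, 5, 6} (Set.subset_univ _)
  have h3 := ((nf_indep _).1 (h2.2 hd)).1
  rw [h1] at h3
  exact absurd h3 (by decide)

end Pool.Agent.H76CF
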